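import Mathlib
import Pool.Agent.V11309.BBase

/-! A `Q`-normal number which is abnormal along all progressions (order equal to modulus). -/

set_option autoImplicit false

namespace Pool.Agent.Results.MP_8144ad_nt.NotAPNormal

open Filter Topology Finset MeasureTheory
open Pool.Agent.V11309.Cantor Pool.Agent.V11309.SetLln Pool.Agent.V11309.Erase
open Pool.Agent.V11309.EraseNormal Pool.Agent.V11309.IsoLln Pool.Agent.V11309.Normality
open Pool.Agent.V11309.FromDigits Pool.Agent.V11309.BBase

lemma hQ1 : ∀ n, 1 ≤ n → 2 ≤ Q n := fun n _ => two_le_Q n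

lemma hw (k : ℕ) (hk : 1 ≤ k) : Tendsto (weight Q k 1 0) atTop atTop :=
  divergentI k 1 0 hk le_rfl (by norm_num)

lemma weight_all (k n : ℕ) : weight Q k 1 0 n = ∑ p ∈ Icc 1 n, wt Q k p := by
  unfold weight wt
  have e : (Icc 1 n).filter (fun p => p % 1 = 0) = Icc 1 n := by
    apply filter_true_of_mem
    intro x _
    omega
  rw [e]

lemma weight_compl (k n : ℕ) :
    weight Q k 1 0 n = weightV Q k (LL k) n + weightV Q k (fun p => ¬ LL k p) n := by
  classical
  rw [weight_all]
  unfold weightV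
  rw [← sum_filter_add_sum_filter_not (Icc 1 n) (LL k)]
  congr!

lemma card_add_le (S : Finset ℕ) (p q s : ℕ → Prop) [DecidablePred p] [DecidablePred q]
    [DecidablePred s] (h1 : ∀ x ∈ S, p x → s x) (h2 : ∀ x ∈ S, q x → s x)
    (h3 : ∀ x ∈ S, p x → ¬ q x) : (S.filter p).card + (S.filter q).card ≤ (S.filter s).card := by
  rw [← card_union_of_disjoint]
  · apply card_le_card
    intro x hx
    rw [mem_union, mem_filter, mem_filter] at hx
    rw [mem_filter]
    rcases hx with hx | hx
    · exact ⟨hx.1, h1 x hx.1 hx.2⟩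
    · exact ⟨hx.1, h2 x hx.1 hx.2⟩
  · rw [disjoint_left]
    intro x hx1 hx2
    rw [mem_filter] at hx1 hx2
    exact h3 x hx1.1 hx1.2 hx2.2

lemma weightV_nonneg (k n : ℕ) (V : ℕ → Prop) : 0 ≤ weightV Q k V n := by
  unfold weightV
  exact sum_nonneg fun _ _ => wt_nonneg _ _ _

lemma LL_ratio (k : ℕ) (hk : 1 ≤ k) :
    Tendsto (fun n => weightV Q k (LL k) n / weight Q k 1 0 n) atTop (𝓝 0) := by
  have h1 := cesaro_zero (wt Q k) η (wt_nonneg Q k) η_nonneg η_tendsto (by
    have := hw k hk
    refine this.congr fun n => weight_all k n)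
  have h2 := h1.const_mul (2 * k : ℝ)
  rw [mul_zero] at h2
  refine squeeze_zero (fun n => ?_) (fun n => ?_) h2
  · exact div_nonneg (weightV_nonneg _ _ _) (weight_nonneg _ _ _ _)
  · rw [← weight_all, mul_div_assoc']
    exact div_le_div_of_nonneg_right (LL_weight k n) (weight_nonneg _ _ _ _)

lemma compl_ratio (k : ℕ) (hk : 1 ≤ k) :
    Tendsto (fun n => weightV Q k (fun p => ¬ LL k p) n / weight Q k 1 0 n) atTop (𝓝 1) := by
  have h := (LL_ratio k hk).const_sub 1
  rw [sub_zero] at h
  refine h.congr' ?_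
  filter_upwards [(hw k hk).eventually_gt_atTop 0] with n hn
  rw [eq_div_iff hn.ne', sub_mul, div_mul_cancel₀ _ hn.ne', one_mul, weight_compl]
  ring

/-- a good digit sequence which also satisfies the law of large numbers outside the erased set -/
lemma exists_E : ∃ E, Good Q E ∧ ∀ k, 1 ≤ k →
    Tendsto (fun n => (countV E (Z k) (fun p => ¬ LL k p) n : ℝ) /
      weightV Q k (fun p => ¬ LL k p) n) atTop (𝓝 1) := by
  have hν : ∀ c : ℕ, ∀ᶠ n in atTop, (unif (Q n)).real {c} = ((Q n : ℝ))⁻¹ := fun c => by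
    filter_upwards [Q_tendsto.eventually_gt_atTop c] with n hn
    exact unif_singleton _ _ hn
  have h1 := ae_good (fun n => unif (Q n)) Q
    (fun n hn => unif_lt _ (by have := hQ1 n hn; omega)) hν
    (by
      filter_upwards [eventually_ge_atTop 1] with n hn
      exact unif_upper _ (by have := hQ1 n hn; omega))
  have h2 : ∀ᵐ ω ∂(Measure.infinitePi (fun n => unif (Q n))), ∀ k, 1 ≤ k →
      Tendsto (fun n => (countV ω (Z k) (fun p => ¬ LL k p) n : ℝ) /
      weightV Q k (fun p => ¬ LL k p) n) atTop (𝓝 1) := by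
    rw [ae_all_iff]; intro k
    rw [ae_all_iff]; intro hk
    exact ae_set (fun n => unif (Q n)) Q hν hk (Z k) _
      (tendsto_of_ratio_one (compl_ratio k hk) (hw k hk))
  exact (h1.and h2).exists

/-- few erased runs -/
lemma few (E : ℕ → ℕ) (hG : Good Q E) (k : ℕ) (hk : 1 ≤ k)
    (hE : Tendsto (fun n => (countV E (Z k) (fun p => ¬ LL k p) n : ℝ) /
      weightV Q k (fun p => ¬ LL k p) n) atTop (𝓝 1)) :
    Tendsto (fun n => (isoCount Q E LL k 1 0 n : ℝ) / weight Q k 1 0 n) atTop (𝓝 0) := by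
  classical
  have h1 := hG.norm k hk (Z k) 1 0 (hw k hk)
  have h2 := ratio_trans hE (compl_ratio k hk) (tendsto_of_ratio_one (compl_ratio k hk) (hw k hk))
  have h3 := h1.sub h2
  rw [sub_self] at h3
  refine squeeze_zero (fun n => ?_) (fun n => ?_) h3
  · exact div_nonneg (by positivity) (weight_nonneg _ _ _ _)
  · rw [← sub_div]
    apply div_le_div_of_nonneg_right _ (weight_nonneg _ _ _ _)
    have hle : isoCount Q E LL k 1 0 n + countV E (Z k) (fun p => ¬ LL k p) n ≤
        countE E (Z k) 1 0 n := by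
      unfold isoCount countV countE
      have h := card_add_le (Icc 1 n) (fun p => p % 1 = 0 ∧ LL k p ∧ Iso Q E k p)
        (fun p => ¬ LL k p ∧ OccE E (Z k) p) (fun p => p % 1 = 0 ∧ OccE E (Z k) p)
        (fun p _ hp => ⟨hp.1, fun j => hp.2.2.2.2.1 (p + j) (by omega) (by have := j.2; omega)⟩)
        (fun p _ hp => ⟨by omega, hp.2⟩) (fun p _ hp1 hp2 => hp2.1 hp1.2.1)
      convert h
    have : (isoCount Q E LL k 1 0 n : ℝ) + countV E (Z k) (fun p => ¬ LL k p) n ≤
        countE E (Z k) 1 0 n := by exact_mod_cast hle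
    linarith

/-- many erased runs along every class -/
lemma many (E : ℕ → ℕ) (hG : Good Q E) (k r : ℕ) (hk : 2 ≤ k) (hr : r < k) :
    ∃ᶠ n in atTop, 1 / 32 * weight Q k k r n ≤ isoCount Q E LL k k r n := by
  classical
  have hI := hG.iso k k r (divergentI k k r (by omega) (by omega) hr)
  obtain ⟨M, hM⟩ := eventually_atTop.1 hI
  rw [frequently_atTop]
  intro b
  obtain ⟨R', hR', hRr⟩ : ∃ R', R' < 2 ∧ R' ≠ r := by
    rcases Nat.eq_zero_or_pos r with h | h
    · exact ⟨1, by norm_num, by omega⟩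
    · exact ⟨0, by norm_num, by omega⟩
  set i := Nat.pair (2 * (k - 2) + R') (b + M + k) with hi
  have hKi : K i = k := by
    unfold K
    rw [hi, Nat.unpair_pair]
    simp only
    omega
  have hRi : R i = R' := by
    unfold R
    rw [hi, Nat.unpair_pair]
    simp only
    omega
  have hib : b + M + k ≤ i := Nat.right_le_pair _ _
  have hNi : i + 1 ≤ N (i + 1) := N_ge _
  refine ⟨N (i + 1), by omega, ?_⟩
  have h1 := hM (N (i + 1)) (by omega)
  have h2 := weight_lower k k r i (by omega) hr (by omega) (by omega)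
  have hcount : isoCount Q E (fun _ _ => True) k k r (N (i + 1)) ≤
      isoCount Q E LL k k r (N (i + 1)) + (N i + 4 * k) := by
    unfold isoCount
    have hsub : ((Icc 1 (N (i + 1))).filter fun p => p % k = r ∧ True ∧ Iso Q E k p) ⊆
        ((Icc 1 (N (i + 1))).filter fun p => p % k = r ∧ LL k p ∧ Iso Q E k p) ∪
        (range (N i + 2 * k) ∪ Ioc (N (i + 1) - 2 * k) (N (i + 1))) := by
      intro p hp
      rw [mem_filter, mem_Icc] at hp
      rw [mem_union, mem_union, mem_filter, mem_range, mem_Ioc, mem_Icc]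
      by_cases hp1 : p < N i + 2 * k
      · exact Or.inr (Or.inl hp1)
      by_cases hp2 : N (i + 1) - 2 * k < p
      · exact Or.inr (Or.inr ⟨hp2, hp.1.2⟩)
      refine Or.inl ⟨hp.1, hp.2.1, ⟨i, hKi, by omega, by omega, ?_⟩, hp.2.2.2⟩
      rw [hRi, hp.2.1]
      exact fun h => hRr h.symm
    have h3 := (card_le_card hsub).trans ((card_union_le _ _).trans
      (Nat.add_le_add_left (card_union_le _ _) _))
    rw [card_range, Nat.card_Ioc] at h3
    refine le_trans (le_of_eq ?_) (h3.trans (by omega))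
    congr 1
    ext p
    simp only [mem_filter]
  have h3 : (isoCount Q E (fun _ _ => True) k k r (N (i + 1)) : ℝ) ≤
      isoCount Q E LL k k r (N (i + 1)) + (N i + 4 * k) := by exact_mod_cast hcount
  have h4 : (k : ℝ) ≤ i := by exact_mod_cast (by omega : k ≤ i)
  linarith

/-- **Answer to Q1: yes.** -/
theorem result :
    ∃ (x : ℝ) (Q : ℕ → ℕ), (∀ n, 2 ≤ Q n) ∧ Tendsto Q atTop atTop ∧ FullyDivergentI Q ∧
      x ∈ Normal Q \ ⋃ k ≥ 2, ⋃ r < k, NormalAP Q k k r := by
  obtain ⟨E, hG, hE⟩ := exists_E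
  refine ⟨xx Q (eraseZ Q E LL), Q, two_le_Q, Q_tendsto, divergentI, ?_, ?_⟩
  · intro k hk
    exact normal_of_few hQ1 Q_tendsto hG LL hw k hk (few E hG k hk (hE k hk))
  · simp only [Set.mem_iUnion, not_exists]
    intro k hk r hr
    exact not_normal_of_many hQ1 Q_tendsto hG LL (hw 1 le_rfl) k k r (by omega)
      (divergentI k k r (by omega) (by omega) hr) (δ := 1 / 32) (by norm_num)
      (many E hG k r hk hr)

end Pool.Agent.Results.MP_8144ad_nt.NotAPNormal
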